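import Pool.Agent.Lib.MP_524519_ag.DU5.Defs
import Pool.Agent.Lib.MP_524519_ag.DU5.PC.Iface

/-! # Durfee's inequality by reduction to characteristic `p`: the statements of the chapters

`CP` (in `Defs`) is proved from the chapters `AB` (Cartier, upper bound), `RES` (restriction to the
generic plane of a pencil), `LNK` (the plane curve), `TE1`, `TE2` (Teissier), `FLD` (the field),
`SHR` (shear) and `NUM` (numerical end). -/

set_option autoImplicit false
set_option linter.unusedSectionVars false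

namespace Pool.Agent.DU5

open MvPowerSeries

/-- `f` has order `≥ d` and contains the monomial `x_0^d`. -/
structure R3 {k : Type} [Field k] (d : ℕ) (f : O k 3) : Prop where
  low : ∀ e : Fin 3 →₀ ℕ, e 0 + e 1 + e 2 < d → coeff e f = 0
  top : coeff (Finsupp.single 0 d) f ≠ 0

/-- The field `F ⊇ k` with the derivation `D` over `k` and the element `lam` with `D lam = 1`. -/
structure Pen (p : ℕ) {k F : Type} [Field k] [Field F] [Algebra k F] (D : Derivation k F F)
    (lam : F) : Prop where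
  nil : ∀ a, D^[p] a = 0
  one : D lam = 1
  good : PC.Good F (p - 1)

/-- The inclusion of `k⟦x_0, x_1, x_2⟧` in `F⟦x_0, x_1, x_2⟧`. -/
noncomputable def bc (k F : Type) [Field k] [Field F] [Algebra k F] : O k 3 →+* O F 3 :=
  MvPowerSeries.map (algebraMap k F)

/-- The restriction to the plane `x_2 = lam x_1`: `x_0 ↦ y`, `x_1 ↦ x`, `x_2 ↦ lam x`
(`x = X 0`, `y = X 1` in `F⟦x, y⟧`). -/
noncomputable def rs {k F : Type} [Field k] [Field F] [Algebra k F] (lam : F) (h : O k 3) :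
    PC.R2 F :=
  MvPowerSeries.subst ![(X 1 : PC.R2 F), X 0, C lam * X 0] h

/-- `D_j`: the colength of the restriction of `I^(j/p)` to the plane `x_2 = lam x_1`. -/
noncomputable def DN {k F : Type} [Field k] [Field F] [Algebra k F] (lam : F) (p : ℕ) (f : O k 3)
    (j : ℕ) : ℕ∞ :=
  len F (Ideal.span (rs lam '' (IS p f j : Set (O k 3))))

/-- `E`: the colength of `(φ, φ_y)`, `φ = rs lam f`. -/
noncomputable def EE {k F : Type} [Field k] [Field F] [Algebra k F] (lam : F) (f : O k 3) : ℕ∞ :=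
  len F (Ideal.span {rs lam f, pderiv F 1 (rs lam f)})

/-- `μ'`: the colength of `(φ_x, φ_y)`, `φ = rs lam f`. -/
noncomputable def MU1 {k F : Type} [Field k] [Field F] [Algebra k F] (lam : F) (f : O k 3) : ℕ∞ :=
  len F (Ideal.span {pderiv F 0 (rs lam f), pderiv F 1 (rs lam f)})

/-- `e`: the colength of `(f, f_0, f_1 + lam f_2)` over `F`. -/
noncomputable def ee {k F : Type} [Field k] [Field F] [Algebra k F] (lam : F) (f : O k 3) : ℕ∞ :=
  len F (Ideal.span {bc k F f, bc k F (pderiv k 0 f),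
    bc k F (pderiv k 1 f) + C lam * bc k F (pderiv k 2 f)})

/-- AB: the upper bound. -/
def ABStatement : Prop :=
  ∀ (p : ℕ) [Fact p.Prime] (k : Type) [Field k] [CharP k p] [IsAlgClosed k] (F : Type) [Field F]
    [Algebra k F] (f : O k 3), constantCoeff f = 0 → len k (jac f) ≠ ⊤ →
    ∀ a ∈ Ideal.span (Set.range (X : Fin 3 → O F 3)),
    ∀ a' ∈ Ideal.span (Set.range (X : Fin 3 → O F 3)),
    ∀ b ∈ (jac f).map (bc k F), ∀ b₁ ∈ (jac f).map (bc k F), ∀ b₂ ∈ (jac f).map (bc k F),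
    ∑ v : Fin 3 → Fin p, len k (IS p f (∑ i, (v i : ℕ))) ≤
      ((p + 1).choose 3 : ℕ) * (len F (Ideal.span {bc k F f, a, a'}) +
        2 * len F (Ideal.span {bc k F f, a, b})) +
      ((p + 2).choose 3 : ℕ) * len F (Ideal.span {bc k F f, b₁, b₂})

/-- RES: restriction to the generic plane of the pencil. -/
def RESStatement : Prop :=
  ∀ (p : ℕ) [Fact p.Prime] (k : Type) [Field k] [CharP k p] [IsAlgClosed k] (F : Type) [Field F]
    [Algebra k F] (D : Derivation k F F) (lam : F), Pen p D lam →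
    ∀ (d : ℕ) (f : O k 3), 0 < d → R3 d f → len k (jac f) ≠ ⊤ →
    ∀ j, len k (IS p f j) + DN lam p f (j + p) ≤ len k (IS p f (j + p))

/-- LNK: the plane curve `φ = 0`. -/
def LNKStatement : Prop :=
  ∀ (p : ℕ) [Fact p.Prime] (k : Type) [Field k] [CharP k p] [IsAlgClosed k] (F : Type) [Field F]
    [Algebra k F] (D : Derivation k F F) (lam : F), Pen p D lam →
    ∀ (d m : ℕ) (f : O k 3), 1 < d → d < p → R3 d f → len k (jac f) ≤ m →
    EE lam f ≤ d * (m + 1) ∧
    (∀ i j, 3 * p ≤ i + j → EE lam f ≤ DN lam p f i + DN lam p f j) ∧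
    EE lam f + d ≤ 2 * DN lam p f (2 * p)

/-- TE1: Teissier's lemma for the plane curve (`PC.rootExp (d - 1)` is the common denominator of
the Puiseux exponents). -/
def TE1Statement : Prop :=
  ∀ (p : ℕ) [Fact p.Prime] (F : Type) [Field F] [CharP F p] (d E : ℕ), PC.Good F (p - 1) →
    1 < d → ∀ φ : PC.R2 F, PC.Reg d φ → len F (Ideal.span {φ, pderiv F 1 φ}) ≤ E →
    PC.rootExp (d - 1) * E < p → d < p →
    len F (Ideal.span {pderiv F 0 φ, pderiv F 1 φ}) + (d - 1 : ℕ) ≤
      len F (Ideal.span {φ, pderiv F 1 φ})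

/-- TE2: Teissier's lemma for the surface. -/
def TE2Statement : Prop :=
  ∀ (p : ℕ) [Fact p.Prime] (k : Type) [Field k] [CharP k p] [IsAlgClosed k] (F : Type) [Field F]
    [Algebra k F] (D : Derivation k F F) (lam : F), Pen p D lam →
    ∀ (d : ℕ) (f : O k 3), 1 < d → d < p → R3 d f → len k (jac f) ≠ ⊤ → MU1 lam f < p →
    ee lam f ≤ len k (jac f) + MU1 lam f

/-- FLD: existence of the field. -/
def FLDStatement : Prop :=
  ∀ (p : ℕ) [Fact p.Prime] (k : Type) [Field k] [CharP k p] [IsAlgClosed k],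
    ∃ (F : Type) (_ : Field F) (_ : Algebra k F) (D : Derivation k F F) (lam : F), Pen p D lam

/-- SHR: shear. -/
def SHRStatement : Prop :=
  ∀ (p : ℕ) [Fact p.Prime] (k : Type) [Field k] [CharP k p] [IsAlgClosed k] (f : O k 3) (m : ℕ),
    constantCoeff f = 0 → len k (jac f) ≤ m → len k (jac f) ≠ 0 →
    ∃ (d : ℕ) (f' : O k 3), 1 < d ∧ d ≤ m + 1 ∧ R3 d f' ∧ len k (jac f') ≤ m ∧
      len k (IS p f 0) ≤ len k (IS p f' 0)

/-- LD: the multiplicity. -/
def LDStatement : Prop :=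
  ∀ (k : Type) [Field k] (F : Type) [Field F] [Algebra k F] (lam : F) (d : ℕ) (f : O k 3),
    R3 d f → len F (Ideal.span {bc k F f, X 2 - C lam * X 1, (X 1 : O F 3)}) ≤ d

/-- LE: the two descriptions of `E`. -/
def LEStatement : Prop :=
  ∀ (k : Type) [Field k] (F : Type) [Field F] [Algebra k F] (lam : F) (d : ℕ) (f : O k 3),
    0 < d → R3 d f → len F (Ideal.span {bc k F f, X 2 - C lam * X 1, bc k F (pderiv k 0 f)}) ≤
      EE lam f

/-- FNI: the ideals `I^(j/p)` have finite colength. -/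
def FNIStatement : Prop :=
  ∀ (p : ℕ) [Fact p.Prime] (k : Type) [Field k] [CharP k p] [IsAlgClosed k] (f : O k 3),
    len k (jac f) ≠ ⊤ → ∀ j, len k (IS p f j) ≠ ⊤

/-- JIS: the partial derivatives are in `I^(0)`. -/
def JISStatement : Prop :=
  ∀ (p : ℕ) (k : Type) [Field k] (f : O k 3), jac f ≤ IS p f 0

/-- REG: the restriction of `f` to the plane is regular in `y`. -/
def REGStatement : Prop :=
  ∀ (k : Type) [Field k] (F : Type) [Field F] [Algebra k F] (lam : F) (d : ℕ) (f : O k 3),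
    R3 d f → PC.Reg d (rs lam f)

/-- NUM: the numerical end. `L j = len IS p f j`, `D j = DN lam p f j`. -/
def NUMStatement : Prop :=
  ∀ (p d m E e : ℕ) (L D : ℕ → ℕ), p.Prime → 1 < d → d ≤ m + 1 → E ≤ d * (m + 1) →
    e + d ≤ m + E + 1 → 400 * (m + 2) ^ 2 < p →
    (∀ i j, i ≤ j → L i ≤ L j) → (∀ i j, i ≤ j → D i ≤ D j) →
    (∀ j, L j + D (j + p) ≤ L (j + p)) →
    (∀ i j, 3 * p ≤ i + j → E ≤ D i + D j) → E + d ≤ 2 * D (2 * p) →
    ∑ v : Fin 3 → Fin p, L (∑ i, (v i : ℕ)) ≤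
      (p + 1).choose 3 * (d + 2 * E) + (p + 2).choose 3 * e →
    6 * L 0 ≤ m

end Pool.Agent.DU5
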