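import Mathlib

/-! # Durfee's inequality by reduction to characteristic `p`: definitions -/

set_option autoImplicit false
set_option linter.unusedSectionVars false

namespace Pool.Agent.DU5

open MvPowerSeries

/-- Formal power series in `n` variables over `k`. -/
abbrev O (k : Type) [Field k] (n : ℕ) := MvPowerSeries (Fin n) k

section

variable {k A : Type} [Field k] [CommRing A] [Algebra k A]

/-- The value of `h` at a point with coordinates in `A⟦u⟧`. -/
noncomputable def ev {n : ℕ} (x : Fin n → PowerSeries A) (h : O k n) : PowerSeries A :=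
  MvPowerSeries.subst x h

/-- The derivation of `A⟦u⟧` which acts on the coefficients. -/
noncomputable def dl (D : Derivation k A A) (s : PowerSeries A) : PowerSeries A :=
  PowerSeries.mk fun m => D (PowerSeries.coeff m s)

/-- The coefficient of `dx_{i+1} ∧ dx_{i+2}` on `∂_u`, `D`. -/
noncomputable def jm (D : Derivation k A A) (x : Fin 3 → PowerSeries A) (i : Fin 3) :
    PowerSeries A :=
  PowerSeries.derivative A (x (i + 1)) * dl D (x (i + 2)) -
    PowerSeries.derivative A (x (i + 2)) * dl D (x (i + 1))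

/-- The order of the ideal generated by the coordinates of the point `x`. -/
noncomputable def vm (x : Fin 3 → PowerSeries A) : ℕ :=
  sInf {m : ℕ | ∃ i, PowerSeries.coeff m (x i) ≠ 0}

/-- The 2-form `h · ω` has order at least `r` along the point `x` (`r = 0`: no pole). -/
def OrdGe (r : ℕ) (f h : O k 3) (D : Derivation k A A) (x : Fin 3 → PowerSeries A) : Prop :=
  ∃ g : PowerSeries A, ∀ i, PowerSeries.X ^ r * g * ev x (pderiv k i f) = ev x h * jm D x i

/-- The derivation `D` has `p`-th power zero and takes the value one. -/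
def Nice (p : ℕ) (D : Derivation k A A) : Prop := (∀ a, D^[p] a = 0) ∧ ∃ t, D t = 1

theorem hs {n : ℕ} {x : Fin n → PowerSeries A} (hx : ∀ i, PowerSeries.constantCoeff (x i) = 0) :
    HasSubst x := hasSubst_of_constantCoeff_zero hx

theorem ev_add {n : ℕ} {x : Fin n → PowerSeries A}
    (hx : ∀ i, PowerSeries.constantCoeff (x i) = 0) (a b : O k n) :
    ev x (a + b) = ev x a + ev x b := by
  unfold ev; rw [← coe_substAlgHom (hs hx)]; exact map_add _ _ _

theorem ev_mul {n : ℕ} {x : Fin n → PowerSeries A}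
    (hx : ∀ i, PowerSeries.constantCoeff (x i) = 0) (a b : O k n) :
    ev x (a * b) = ev x a * ev x b := by
  unfold ev; rw [← coe_substAlgHom (hs hx)]; exact map_mul _ _ _

theorem ev_zero {n : ℕ} {x : Fin n → PowerSeries A}
    (hx : ∀ i, PowerSeries.constantCoeff (x i) = 0) : ev x (0 : O k n) = 0 := by
  unfold ev; rw [← coe_substAlgHom (hs hx)]; exact map_zero _

end

/-- The ideal `I^(j/p)`: the series `h` such that `h · ω` has order at least `⌊(j/p) v(m)⌋` along
every point of `f = 0` with coordinates in `K⟦u⟧`, for every nice derivation of `K`. -/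
noncomputable def IS {k : Type} [Field k] (p : ℕ) (f : O k 3) (j : ℕ) : Ideal (O k 3) where
  carrier := {h | ∀ (K : Type) [Field K] [Algebra k K] (D : Derivation k K K)
    (x : Fin 3 → PowerSeries K), Nice p D → (∀ i, PowerSeries.constantCoeff (x i) = 0) → x ≠ 0 →
    ev x f = 0 → OrdGe (j * vm x / p) f h D x}
  zero_mem' := by
    intro K _ _ D x _ hx _ _
    refine ⟨0, fun i => ?_⟩
    rw [ev_zero hx]; ring
  add_mem' := by
    intro a b ha hb K _ _ D x hD hx hx0 hf
    obtain ⟨g, hg⟩ := ha K D x hD hx hx0 hf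
    obtain ⟨g', hg'⟩ := hb K D x hD hx hx0 hf
    refine ⟨g + g', fun i => ?_⟩
    rw [ev_add hx, add_mul, ← hg i, ← hg' i]; ring
  smul_mem' := by
    intro c a ha K _ _ D x hD hx hx0 hf
    obtain ⟨g, hg⟩ := ha K D x hD hx hx0 hf
    refine ⟨ev x c * g, fun i => ?_⟩
    rw [smul_eq_mul, ev_mul hx, mul_assoc (ev x c), ← hg i]; ring

/-- The dimension of `R ⧸ I` over `k`. -/
noncomputable def len (k : Type) [Field k] {R : Type} [CommRing R] [Algebra k R] (I : Ideal R) :
    ℕ∞ := Module.length k (R ⧸ I)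

/-- The ideal of the partial derivatives. -/
noncomputable def jac {k : Type} [Field k] {n : ℕ} (f : O k n) : Ideal (O k n) :=
  Ideal.span (Set.range fun i => pderiv k i f)

/-- The adjoint ideal over `ℂ`, as in `NewtonNondegenerate`. -/
noncomputable def adj (f : O ℂ 3) : Ideal (O ℂ 3) where
  carrier := {h | ∀ (K : Type) [Field K] [Algebra ℂ K] (D : Derivation ℂ K K)
    (x : Fin 3 → PowerSeries K), (∀ i, PowerSeries.constantCoeff (x i) = 0) → ev x f = 0 →
    OrdGe 0 f h D x}
  zero_mem' := by
    intro K _ _ D x hx _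
    refine ⟨0, fun i => ?_⟩
    rw [ev_zero hx]; ring
  add_mem' := by
    intro a b ha hb K _ _ D x hx hf
    obtain ⟨g, hg⟩ := ha K D x hx hf
    obtain ⟨g', hg'⟩ := hb K D x hx hf
    refine ⟨g + g', fun i => ?_⟩
    rw [ev_add hx, add_mul, ← hg i, ← hg' i]; ring
  smul_mem' := by
    intro c a ha K _ _ D x hx hf
    obtain ⟨g, hg⟩ := ha K D x hx hf
    refine ⟨ev x c * g, fun i => ?_⟩
    rw [smul_eq_mul, ev_mul hx, mul_assoc (ev x c), ← hg i]; ring

/-- CP, the theorem in characteristic `p`. -/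
def CPStatement : Prop :=
  ∀ m : ℕ, ∃ P : ℕ, ∀ (p : ℕ) [Fact p.Prime], P < p →
    ∀ f : O (AlgebraicClosure (ZMod p)) 3, constantCoeff f = 0 →
      len (AlgebraicClosure (ZMod p)) (jac f) ≤ m →
      6 * len (AlgebraicClosure (ZMod p)) (IS p f 0) ≤ m

/-- TR, the transfer from `ℂ` to characteristic `p`. -/
def TRStatement : Prop :=
  ∀ (f : O ℂ 3) (m n : ℕ), constantCoeff f = 0 → len ℂ (jac f) ≤ m → n ≤ len ℂ (adj f) →
    ∃ P : ℕ, ∀ (p : ℕ) [Fact p.Prime], P < p →
      ∃ f' : O (AlgebraicClosure (ZMod p)) 3, constantCoeff f' = 0 ∧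
        len (AlgebraicClosure (ZMod p)) (jac f') ≤ m ∧
        n ≤ len (AlgebraicClosure (ZMod p)) (IS p f' 0)

end Pool.Agent.DU5
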